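import Pool.Agent.Helper21.CC.N9
import Pool.Agent.Helper21.CC.N16

set_option autoImplicit false

namespace Pool.Agent.Results.MP_b696eb_nt.CommutingConjugations

open SB

/-- **Artin representations with commuting complex conjugations.** Let `ρ` be a continuous complex representation of
`Gal(ℚ̄/ℚ)` of degree `d`; `c` runs over the complex conjugations, `F` over totally real number fields.

The following are equivalent: the `ρ(c)` commute with each other; the character of `ρ` is an integral combination of
characters `Ind_F χ`, `χ` linear; `tr ρ - d` is an integral combination of differences `Ind_F χ - Ind_F 1`; the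
character of `ρ` is a sum of characters `Ind_F (χ tr τ)`, `χ² = 1`, `τ(c) = 1` for all `c`.

Moreover, let the `ρ(c)` commute, and let `ρ'` be continuous of degree `d`.

(a) `ρ'` has the same trace as `ρ` on the group generated by the `c` if and only if `tr ρ - tr ρ'` is an integral
combination of differences `Ind_F χ - Ind_F χ'`, `χ, χ'` of the same sign at every real place of `F`.

(b) If the `ρ'(c)` commute, too, and `tr ρ(c) = tr ρ'(c)` for all `c`, then `k (tr ρ - tr ρ')` is an integral
combination of differences `Ind_E χ - Ind_E χ'`, `χ, χ'` of the same sign at every real place of `E`, `E` a totally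
real field or a quadratic extension of one, for every `k` divisible by every odd prime which divides the index of the
group of the `g` for which `ρ(g)` commutes with all `ρ(c)`, or the same index for `ρ'`.

(c) These primes are necessary: let `F` be a totally real Galois extension of `ℚ` of degree `n`, `χ` a linear
character negative at exactly one real place of `F`, and `ε` an odd linear character of `Gal(ℚ̄/ℚ)`. Then
`j (Ind_F χ - (n - 1) - ε)` is an integral combination as in (b) if and only if every odd prime divisor of `n` divides
`j`, and if and only if it is one of the same kind for fields `E` reached from totally real fields by successive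
cyclic extensions of prime degree. -/
theorem result :
    (∀ (d : ℕ) (ρ : Rp Gal d), Continuous ρ →
      List.TFAE [CommOn Conj ρ,
        SomeGal fun N => MonComb N (fun U => Conj ⊆ U) (chr ρ),
        SomeGal fun N => UnitComb N (fun U => Conj ⊆ U) (fun g => chr ρ g - d),
        SomeGal fun N => RealDecomp Conj N ρ] ∧
      (CommOn Conj ρ → ∀ ρ' : Rp Gal d, Continuous ρ' →
        ((∀ g ∈ Subgroup.closure Conj, chr ρ g = chr ρ' g) ↔
          SomeGal fun N => Decomp Conj N (fun U => Conj ⊆ U) ρ ρ') ∧
        (CommOn Conj ρ' → (∀ c ∈ Conj, chr ρ c = chr ρ' c) →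
          ∀ k : ℕ, OddRad (CentOn Conj ρ).index k → OddRad (CentOn Conj ρ').index k →
            SomeGal fun N => SigComb Conj N (QuadOver Conj) (fun g => (k : ℂ) * (chr ρ g - chr ρ' g))))) ∧
    (∀ (K : IntermediateField ℚ Qb) (n : ℕ) (U : Subgroup Gal) (χ : U →* ℂˣ) (ε : Gal →* ℂˣ), FinGal ℚ K →
      OnePlace Conj (GalOver K) n U χ → OddChar Conj (GalOver K) ε → ∀ j : ℕ,
      List.TFAE [OddRad n j,
        SomeGal fun N => SigComb Conj N (QuadOver Conj) (OneDiff n U χ ε j),
        SomeGal fun N => SigComb Conj N (CycTower Conj) (OneDiff n U χ ε j)]) :=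
  ⟨fun _ ρ hρ => ⟨cc_tfae ρ hρ, fun h ρ' hρ' => ⟨cc_pair ρ ρ' hρ hρ' h,
    fun h' hc _ hk hk' => cc_rad ρ ρ' hρ hρ' h h' hc hk hk'⟩⟩,
    fun _ _ _ _ ε hK h hε j => cc_sharp hK h ε hε j⟩

end Pool.Agent.Results.MP_b696eb_nt.CommutingConjugations
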