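import Pool.Agent.Helper21.CT.K11

set_option autoImplicit false

namespace Pool.Agent.Results.MP_b696eb_nt.CyclicTowers

open SB

/-- **Signature induction along towers of cyclic and cubic extensions of totally real fields.** Let `v` be a class
function of `Gal(ℚ̄/ℚ)` with `v(1) = 0`. Let `T` be the class of the number fields which are reached from arbitrary
totally real fields by successive extensions, each cyclic of prime degree or (possibly non normal) cubic.

Assume first that `v(c) = 0` at the complex conjugations `c`.

(1) If some positive multiple of `v` is an integral combination of characters `Ind_F χ`, `F ∈ T`, `χ` linear, then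
some multiple `k v`, `k ≥ 1`, is an integral combination of differences `Ind_E χ - Ind_E χ'`, `E ∈ T`, where
`χ, χ'` have the same sign at every real place of `E`.

(2) `k = 1` if `v` is an integral combination of good characters `Ind_F φ`: `φ` is obtained from linear characters by
sums, negation and inductions along the steps above, where for a step `E/E'` of odd degree `p` and each real place of
`E'` above which there are `p` real places of `E`, the number of eigenvalues `-1` of the result at that place is
divisible by `p`; and, finally, either `F` is totally real and `φ` is constant on the `c`, or `F ∈ T` and `φ` is zero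
on the `c` (for example `F` is totally complex).

(3) Without the assumption on `v(c)`: if `v` is an integral combination of characters `Ind_F χ`, `F ∈ T`, then it is
an integral combination of differences `Ind_E χ - Ind_E 1`, `E ∈ T`. -/
theorem result (v : Gal → ℂ) (N : Subgroup Gal) (hN : IsOpen (N : Set Gal)) (h1 : v 1 = 0) :
    ((∀ c ∈ Conj, v c = 0) →
      ((∃ k' : ℕ, 0 < k' ∧ MonComb N (TTower Conj) (fun g => (k' : ℂ) * v g)) →
        ∃ (k : ℕ) (K : IntermediateField ℚ Qb), 0 < k ∧ FinGal ℚ K ∧
          SigTower Conj (GalOver K) (fun g => (k : ℂ) * v g)) ∧
      (GoodTower Conj N v → ∃ K : IntermediateField ℚ Qb, FinGal ℚ K ∧ SigTower Conj (GalOver K) v)) ∧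
    (MonComb N (TTower Conj) v →
      ∃ K : IntermediateField ℚ Qb, FinGal ℚ K ∧ UnitComb (GalOver K) (TTower Conj) v) :=
  ⟨fun hc => ⟨ct3_one v N hN h1 hc, ct3_two v N hN h1 hc⟩, ct3_unit v N hN h1⟩

end Pool.Agent.Results.MP_b696eb_nt.CyclicTowers
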