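import Pool.Agent.Helper68.OPF.Z

set_option autoImplicit false

namespace Pool.Agent.Results.MP_b696eb_nt.OddPlanes

open SB

/-- **Brauer induction over totally real fields with odd planes.** Let `F` be a number field, `c` the complex
conjugations in `G_F`, and `ρ, ρ' : G_F → GL_d(ℂ)` continuous representations; `F'` runs over the finite extensions of
`F` such that all `c` are in `G_F'` (the totally real ones if `F` is totally real).

`ℂ^d` is a direct sum of planes, stable under all `ρ(c)`, on which all `ρ(c)` have trace zero, and of subspaces on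
which each `ρ(c)` is `1` or `-1`, with the same sign for all `c` which belong to one real place of `F`, if and only if
`tr ρ` is an integral combination of linear characters of `G_F` and of differences `Ind_F' ψ - Ind_F' ψ'` (*), where
`ψ, ψ'` are linear characters equal at all `c`, or representations of degree two with trace zero at all `c`.
Moreover:

(1) `ℂ^d` is a direct sum of such planes and of lines stable under all `ρ(c)` if and only if `tr ρ` is an integral
combination of characters `Ind_F' ψ`, where `ψ` is linear, or of degree two with trace zero at all `c`.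

(2) Let `tr ρ(c) = tr ρ'(c)` for all `c`. If `ρ, ρ'` are as in the first equivalence, then `tr ρ - tr ρ'` is an
integral combination of differences (*) and of differences `Ind_E χ - Ind_E χ'` (**), where `E` is some `F'` or a
quadratic extension of some `F'`, and `χ, χ'` are linear characters equal at all `c` in `G_E`; the differences (**) are
not needed if `F` has at most one real place, for instance if `F = ℚ`. If `ρ, ρ'` are as in (1), then this holds for
`k (tr ρ - tr ρ')`, if `k` is divisible by all odd primes which divide the index in `G_F` of the group generated by the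
`c` and by the intersection of the kernels of `ρ, ρ'`, i.e. the degree over `F` of the largest `F'` in the field of
this intersection.

All data are trivial on `G_K`, for a finite Galois extension `K/F`, which is solvable if the images of `ρ` (and `ρ'`)
are solvable. -/
theorem result (F : NumF) :
    (∀ (d : ℕ) (ρ : Rp (GalF F) d), Continuous ρ →
      (OddSums (ConjF F) ρ ↔
        SomeGalF F (fun K => SolIm ρ → SolGalF F K) fun N => LinComb (ConjF F) N (chr ρ)) ∧
      (LineSums (ConjF F) ρ ↔
        SomeGalF F (fun K => SolIm ρ → SolGalF F K) fun N => OddComb (ConjF F) N (chr ρ))) ∧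
    ∀ (d : ℕ) (ρ ρ' : Rp (GalF F) d), EqAt (ConjF F) ρ ρ' →
      (OddSums (ConjF F) ρ → OddSums (ConjF F) ρ' →
        SomeGalF F (fun K => SolIm ρ → SolIm ρ' → SolGalF F K) fun N =>
          QuadComb (ConjF F) N (fun g => chr ρ g - chr ρ' g) ∧
          (OneClass (ConjF F) → PlaneComb (ConjF F) N (fun g => chr ρ g - chr ρ' g))) ∧
      (LineSums (ConjF F) ρ → LineSums (ConjF F) ρ' → ∀ k : ℕ,
        (∀ p : ℕ, p.Prime → p ≠ 2 → p ∣ (Subgroup.closure (ConjF F) ⊔ (ρ.ker ⊓ ρ'.ker)).index → p ∣ k) →
        SomeGalF F (fun K => SolIm ρ → SolIm ρ' → SolGalF F K) fun N =>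
          QuadComb (ConjF F) N (fun g => (k : ℂ) * (chr ρ g - chr ρ' g))) := by
  refine ⟨fun d ρ hρ => ⟨?_, ?_⟩, fun d ρ ρ' h => ⟨fun ho ho' => ?_, fun ho ho' k hk => ?_⟩⟩
  · refine (z_iff F.fld F.fin ρ hρ).trans (exists_congr fun K => ?_)
    rw [galOverF_eq]
    rfl
  · refine (z_line_iff F.fld F.fin ρ hρ).trans (exists_congr fun K => ?_)
    rw [galOverF_eq]
    rfl
  · obtain ⟨K, h1, h2, h3⟩ := z_pair F.fld F.fin ρ ρ' h ho ho'
    refine ⟨K, h1, h2, ?_⟩
    rw [galOverF_eq]
    exact h3
  · obtain ⟨K, h1, h2, h3⟩ := z_line_pair F.fld F.fin ρ ρ' h ho ho' hk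
    refine ⟨K, h1, h2, ?_⟩
    rw [galOverF_eq]
    exact h3

end Pool.Agent.Results.MP_b696eb_nt.OddPlanes
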