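import Pool.Agent.Helper21.SBF.Stmt
import Pool.Agent.Helper21.SBF.Z

set_option autoImplicit false

namespace Pool.Agent.Results.MP_b696eb_nt.SignatureInduction

open SB

/-- **Brauer induction with signatures over a number field.** Let `F` be a number field, `G_F` its absolute Galois
group, and `S` the set of all complex conjugations in `G_F` (several conjugacy classes, one for each real place).

(1) Let `ρ₁, ρ₂ : G_F → GL_d(ℂ)` be continuous representations whose characters agree on `S` (and at `1`, as the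
degrees agree). The difference of the characters is an integral combination of differences `Ind χ - Ind χ'`, where
`χ, χ'` are linear characters of the same open subgroup `U` (the absolute Galois group of a finite extension of `F`)
which are *equal at all complex conjugations contained in `U`*, i.e. have the same sign at every real place. All data
are trivial on `G_K` for one finite Galois extension `K/F`, whose group is solvable (nilpotent) if the images of
`ρ₁, ρ₂` are solvable (nilpotent).

(2) If `ρ₁, ρ₂` are commutative on a normal subgroup of index a power of `2`, then all subgroups `U` can be reached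
from `G_F` by a chain of subgroups of index `2`.

(3) Let `L` be an invariant of the continuous representations of `G_F` with values in a commutative group which is
multiplicative for sums of characters, and equal for `Ind χ` and `Ind χ'` whenever `χ, χ'` have the same signature.
Then `L(ρ₁) = L(ρ₂)` in the situation of (1). Moreover `L` factors over the real places: let `c₁, …, c_r` represent
the conjugacy classes in `S`. There are `a, b₁, …, b_r` with `L(ρ) = a ^ d * ∏ bᵢ ^ mᵢ` for every `ρ` of degree
`d`, where `mᵢ` is the multiplicity of the eigenvalue `-1` of `ρ(cᵢ)`, i.e. `tr ρ(cᵢ) = d - 2 mᵢ`. -/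
theorem result (F : NumF) :
    (∀ (d : ℕ) (ρ₁ ρ₂ : Rp (GalF F) d), EqAt (ConjF F) ρ₁ ρ₂ →
      (SomeGalF F (fun K => (SolIm ρ₁ → SolIm ρ₂ → SolGalF F K) ∧ (NilIm ρ₁ → NilIm ρ₂ → NilGalF F K))
        fun N => Decomp (ConjF F) N (fun _ => True) ρ₁ ρ₂) ∧
      ∀ (C : Subgroup (GalF F)) (n : ℕ), C.Normal → C.index = 2 ^ n → AbOn C ρ₁ → AbOn C ρ₂ →
        SomeGalF F (fun _ => True) fun N => Decomp (ConjF F) N TwoSteps ρ₁ ρ₂) ∧
    ∃ (r : ℕ) (c : Fin r → GalF F), IsRep (ConjF F) c ∧
      ∀ (A : Type) [CommGroup A] (L : ∀ d : ℕ, Rp (GalF F) d → A), Mult L → SigInv (ConjF F) L →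
        (∀ (d : ℕ) (ρ₁ ρ₂ : Rp (GalF F) d), EqAt (ConjF F) ρ₁ ρ₂ → L d ρ₁ = L d ρ₂) ∧
        ∃ (a : A) (b : Fin r → A), ∀ (d : ℕ) (ρ : Rp (GalF F) d), Continuous ρ → ∀ m : Fin r → ℕ,
          (∀ i, chr ρ (c i) = (d : ℂ) - 2 * (m i : ℂ)) → L d ρ = a ^ d * ∏ i, b i ^ m i :=
  ⟨fun _ ρ₁ ρ₂ h => ⟨by
      obtain ⟨K, h1, h2, h3, h4⟩ := f_one F.fld F.fin ρ₁ ρ₂ h
      refine ⟨K, h1, ⟨h2, h3⟩, ?_⟩
      rw [galOverF_eq]
      exact h4, fun C n hC hidx h1 h2 => by
      obtain ⟨K, h3, h4⟩ := f_two F.fld F.fin ρ₁ ρ₂ h C n hC hidx h1 h2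
      refine ⟨K, h3, trivial, ?_⟩
      rw [galOverF_eq]
      exact h4⟩,
    by
      obtain ⟨r, c, hc⟩ := exists_rep F.fld F.fin
      exact ⟨r, c, hc, fun A _ L hmul hsig => ⟨fun _ ρ₁ ρ₂ h => f_three F.fld F.fin L hmul hsig ρ₁ ρ₂ h,
        f_four F.fld F.fin c hc L hmul hsig⟩⟩⟩

end Pool.Agent.Results.MP_b696eb_nt.SignatureInduction
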